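import Mathlib

namespace Pool.Agent.Results.MP_5ead0a_co.Small

/-- `D` is a dominating set of `G`. -/
def IsDom {V : Type} (G : SimpleGraph V) (D : Finset V) : Prop :=
  ∀ v, v ∉ D → ∃ u ∈ D, G.Adj v u

/-- The domination number. -/
noncomputable def domNum {V : Type} (G : SimpleGraph V) : ℕ :=
  sInf {k | ∃ D : Finset V, D.card = k ∧ IsDom G D}

/-- The independent domination number. -/
noncomputable def indDomNum {V : Type} (G : SimpleGraph V) : ℕ :=
  sInf {k | ∃ D : Finset V, D.card = k ∧ IsDom G D ∧ ∀ u ∈ D, ∀ v ∈ D, ¬ G.Adj u v}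

/-- `G` is 3-critical. -/
def ThreeCritical {V : Type} (G : SimpleGraph V) : Prop :=
  domNum G = 3 ∧ ∀ u v, u ≠ v → ¬ G.Adj u v → domNum (G ⊔ SimpleGraph.edge u v) < 3

def adjB (a b : Fin 28) : Bool := Nat.testBit 6753429066595219135804608841347885352891535399820657193789082223657835262542835897585945912129670342446856044506215558654700956040033892575076107681051008835379976676135912257645461089745350367933392802630369630769757275121906058510180 (28 * a.val + b.val)

theorem adjB_symm : ∀ a b, adjB a b = true → adjB b a = true := by decide +kernel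

theorem adjB_irr : ∀ a, ¬ adjB a a = true := by decide +kernel

def G0 : SimpleGraph (Fin 28) where
  Adj a b := adjB a b = true
  symm := ⟨adjB_symm⟩
  loopless := ⟨adjB_irr⟩

theorem f1 : ∀ x y : Fin 28, ∃ z, z ≠ x ∧ z ≠ y ∧ adjB z x = false ∧ adjB z y = false := by
  decide +kernel

theorem f2 : ∀ x y : Fin 28, adjB x y = false → ∀ z, adjB x z = false → adjB y z = false →
    ∃ w, w ≠ x ∧ w ≠ y ∧ w ≠ z ∧ adjB w x = false ∧ adjB w y = false ∧ adjB w z = false := by
  decide +kernel

theorem f3 : ∀ u v : Fin 28, u ≠ v → adjB u v = false → ∃ w,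
    (∀ z, z = u ∨ z = v ∨ z = w ∨ adjB z u = true ∨ adjB z w = true) ∨
    (∀ z, z = u ∨ z = v ∨ z = w ∨ adjB z v = true ∨ adjB z w = true) := by
  decide +kernel

theorem f4 : ∀ v : Fin 28, v ∉ ({0, 1, 7} : Finset (Fin 28)) →
    ∃ u ∈ ({0, 1, 7} : Finset (Fin 28)), adjB v u = true := by
  decide +kernel

theorem dom_le {V : Type} (G : SimpleGraph V) (D : Finset V) (h : IsDom G D) : domNum G ≤ D.card :=
  Nat.sInf_le ⟨D, rfl, h⟩

theorem dom0 : domNum G0 = 3 := by
  have h1 : domNum G0 ≤ 3 := dom_le G0 {0, 1, 7} f4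
  have h2 : domNum G0 ∈ {k | ∃ D : Finset (Fin 28), D.card = k ∧ IsDom G0 D} :=
    Nat.sInf_mem ⟨_, _, rfl, f4⟩
  obtain ⟨D, hD, hd⟩ := h2
  by_contra hne
  have h3 : D.card ≤ 2 := by omega
  obtain ⟨E, hDE, _, hE⟩ := Finset.exists_subsuperset_card_eq (Finset.subset_univ D) h3 (by simp)
  obtain ⟨x, y, _, rfl⟩ := Finset.card_eq_two.1 hE
  obtain ⟨z, z1, z2, z3, z4⟩ := f1 x y
  obtain ⟨u, hu, ha⟩ := hd z (fun h => by
    have := hDE h
    simp [z1, z2] at this)
  have := hDE hu
  have ha' : adjB z u = true := ha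
  simp only [Finset.mem_insert, Finset.mem_singleton] at this
  rcases this with rfl | rfl <;> simp_all

theorem result : ∃ (n : ℕ) (G : SimpleGraph (Fin n)), n = 28 ∧ n < 56 ∧ ThreeCritical G ∧
    domNum G ≠ indDomNum G := by
  refine ⟨28, G0, rfl, by norm_num, ⟨dom0, fun u v huv hn => ?_⟩, ?_⟩
  · have hn' : adjB u v = false := by
      have : ¬ adjB u v = true := hn
      simpa using this
    obtain ⟨w, hw | hw⟩ := f3 u v huv hn'
    · refine lt_of_le_of_lt (dom_le _ {u, w} fun z hz => ?_) (lt_of_le_of_lt Finset.card_le_two (by norm_num))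
      simp only [Finset.mem_insert, Finset.mem_singleton, not_or] at hz
      rcases hw z with h | h | h | h | h
      · exact absurd h hz.1
      · refine ⟨u, by simp, Or.inr ?_⟩
        rw [h, SimpleGraph.edge_adj]
        exact ⟨Or.inr ⟨rfl, rfl⟩, huv.symm⟩
      · exact absurd h hz.2
      · exact ⟨u, by simp, Or.inl h⟩
      · exact ⟨w, by simp, Or.inl h⟩
    · refine lt_of_le_of_lt (dom_le _ {v, w} fun z hz => ?_) (lt_of_le_of_lt Finset.card_le_two (by norm_num))
      simp only [Finset.mem_insert, Finset.mem_singleton, not_or] at hz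
      rcases hw z with h | h | h | h | h
      · refine ⟨v, by simp, Or.inr ?_⟩
        rw [h, SimpleGraph.edge_adj]
        exact ⟨Or.inl ⟨rfl, rfl⟩, huv⟩
      · exact absurd h hz.1
      · exact absurd h hz.2
      · exact ⟨v, by simp, Or.inl h⟩
      · exact ⟨w, by simp, Or.inl h⟩
  · rw [dom0]
    intro h
    have hne : {k | ∃ D : Finset (Fin 28), D.card = k ∧ IsDom G0 D ∧ ∀ u ∈ D, ∀ v ∈ D, ¬ G0.Adj u v}.Nonempty := by
      by_contra hc
      rw [Set.not_nonempty_iff_eq_empty] at hc
      unfold indDomNum at h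
      rw [hc] at h
      simp at h
    obtain ⟨D, hD, hd, hi⟩ := Nat.sInf_mem hne
    have hD3 : D.card = 3 := hD.trans h.symm
    obtain ⟨x, y, z, _, _, _, rfl⟩ := Finset.card_eq_three.1 hD3
    have e : ∀ a ∈ ({x, y, z} : Finset (Fin 28)), ∀ b ∈ ({x, y, z} : Finset (Fin 28)), adjB a b = false := by
      intro a ha b hb
      have : ¬ adjB a b = true := hi a ha b hb
      simpa using this
    obtain ⟨w, w1, w2, w3, w4, w5, w6⟩ := f2 x y (e x (by simp) y (by simp)) z (e x (by simp) z (by simp))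
      (e y (by simp) z (by simp))
    obtain ⟨u, hu, ha⟩ := hd w (by simp [w1, w2, w3])
    have ha' : adjB w u = true := ha
    simp only [Finset.mem_insert, Finset.mem_singleton] at hu
    rcases hu with rfl | rfl | rfl <;> simp_all

end Pool.Agent.Results.MP_5ead0a_co.Small
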